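import Mathlib
import Pool.Agent.H6.PM2

set_option autoImplicit false

open Set Metric Topology unitInterval

namespace Pool.Agent.Results.MP_b0a983_gt.Counter

/-- `ind_x X ≤ n`: the point `x` has arbitrarily small open neighbourhoods whose boundaries
have small inductive dimension `≤ n - 1`. -/
def LocIndLE {X : Type} [TopologicalSpace X] (x : X) (n : ℕ) : Prop :=
  ∀ V ∈ 𝓝 x, ∃ U : Set X, IsOpen U ∧ x ∈ U ∧ U ⊆ V ∧ HasSmallInductiveDimensionLT (frontier U) n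

open Pool.Agent.H6.PM2

theorem not_loc {X : Type} [MetricSpace X] [CompactSpace X] (ψ : I × I → X) (hψ : Continuous ψ)
    (h1 : ψ (0, 0) ≠ ψ (0, 1)) (h2 : ∀ δ ≠ 0, ∀ t t', ψ (0, t) ≠ ψ (δ, t')) :
    ¬ LocIndLE (ψ (0, 0)) 1 := by
  intro H
  have hd : 0 < dist (ψ (0, 1)) (ψ (0, 0)) := dist_pos.2 h1.symm
  obtain ⟨U, hU, hx, hUV, hdim⟩ := H (ball (ψ (0, 0)) (dist (ψ (0, 1)) (ψ (0, 0)) / 2))
    (ball_mem_nhds _ (by linarith))
  have hn : ψ (0, 1) ∉ closure U := fun h => by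
    have := (closure_mono hUV |>.trans closure_ball_subset_closedBall) h
    rw [mem_closedBall] at this
    linarith
  have ho : IsOpen {s : I | ψ (s, 0) ∈ U ∧ ψ (s, 1) ∈ (closure U)ᶜ} :=
    (hU.preimage (f := fun s : I => ψ (s, 0)) (by fun_prop)).inter
      (isClosed_closure.isOpen_compl.preimage (f := fun s : I => ψ (s, 1)) (by fun_prop))
  obtain ⟨ε, hε, hb⟩ := Metric.isOpen_iff.1 ho 0 ⟨hx, hn⟩
  let δ : I := ⟨min (ε / 2) 1, by positivity, min_le_right _ _⟩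
  have hδ : δ ≠ 0 := fun h => by
    have : min (ε / 2) 1 = 0 := congrArg Subtype.val h
    have h' : 0 < min (ε / 2) 1 := by positivity
    linarith
  have hm : ∀ s : I, δ * s ∈ ball (0 : I) ε := fun s => by
    rw [mem_ball, Subtype.dist_eq, Real.dist_eq]
    have a1 : (δ : ℝ) ≤ ε / 2 := min_le_left _ _
    have a2 := (δ * s).2.1
    have a3 : ((δ * s : I) : ℝ) ≤ δ := unitInterval.mul_le_left (x := δ) (y := s)
    simp only [Icc.coe_zero, sub_zero]
    rw [abs_of_nonneg a2]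
    linarith
  refine partition U hU (fun z => ψ (δ * z.1, z.2)) (by fun_prop) (fun s => (hb (hm s)).1)
    (fun s => (hb (hm s)).2) (fun t t' => ?_) hdim
  simpa using h2 δ hδ t t'

theorem loc_two (X : Set (ℝ × ℝ)) (x : X) : LocIndLE x 2 := by
  intro V hV
  obtain ⟨ε, hε, hb⟩ := Metric.mem_nhds_iff.1 hV
  refine ⟨ball x ε, isOpen_ball, mem_ball_self hε, hb, ?_⟩
  refine dim_lines _ (fun y => ((y : X) : ℝ × ℝ))
    (IsEmbedding.subtypeVal.comp IsEmbedding.subtypeVal) _ _ (toFinite _) (toFinite _)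
    (fun y => sphere_cases (x : ℝ × ℝ) _ ε ?_)
  have h : (y : X) ∈ sphere x ε := frontier_ball_subset_sphere y.2
  exact h

theorem not_loc_rect (X : Set (ℝ × ℝ)) [CompactSpace X] (φ : ℝ × ℝ → ℝ × ℝ) (a1 a2 b1 b2 : ℝ)
    (ha : a1 < a2) (hb : b1 < b2) (hc : ContinuousOn φ (Icc a1 a2 ×ˢ Icc b1 b2))
    (hi : InjOn φ (Icc a1 a2 ×ˢ Icc b1 b2)) (hm : MapsTo φ (Icc a1 a2 ×ˢ Icc b1 b2) X)
    (q : ℝ × ℝ) (hq : q ∈ Icc a1 a2 ×ˢ Icc b1 b2) (x : X) (hx : φ q = x) : ¬ LocIndLE x 1 := by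
  obtain ⟨α, hα, hα'⟩ : ∃ α ∈ Icc a1 a2, α ≠ q.1 := by
    by_cases h : a1 = q.1
    · exact ⟨a2, ⟨ha.le, le_rfl⟩, fun h' => ha.ne (h.trans h'.symm)⟩
    · exact ⟨a1, ⟨le_rfl, ha.le⟩, h⟩
  obtain ⟨β, hβ, hβ'⟩ : ∃ β ∈ Icc b1 b2, β ≠ q.2 := by
    by_cases h : b1 = q.2
    · exact ⟨b2, ⟨hb.le, le_rfl⟩, fun h' => hb.ne (h.trans h'.symm)⟩
    · exact ⟨b1, ⟨le_rfl, hb.le⟩, h⟩
  let g : I × I → ℝ × ℝ := fun z => (q.1 + z.2 * (α - q.1), q.2 + z.1 * (β - q.2))
  have hg : Continuous g := by fun_prop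
  have hgm : ∀ z, g z ∈ Icc a1 a2 ×ˢ Icc b1 b2 := fun z =>
    ⟨(convex_Icc a1 a2).add_smul_sub_mem hq.1 hα z.2.2,
      (convex_Icc b1 b2).add_smul_sub_mem hq.2 hβ z.1.2⟩
  let ψ : I × I → X := fun z => ⟨φ (g z), hm (hgm z)⟩
  have hψ : Continuous ψ := (hc.comp_continuous hg hgm).subtype_mk _
  have e : ψ (0, 0) = x := Subtype.ext (by simp [ψ, g, hx])
  rw [← e]
  refine not_loc ψ hψ (fun h => ?_) (fun δ hδ t t' h => ?_)
  · have := congrArg Prod.fst (hi (hgm _) (hgm _) (congrArg Subtype.val h))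
    simp only [g, Icc.coe_zero, Icc.coe_one] at this
    exact hα' (by linarith)
  · have := congrArg Prod.snd (hi (hgm _) (hgm _) (congrArg Subtype.val h))
    simp only [g, Icc.coe_zero] at this
    have h0 : (δ : ℝ) * (β - q.2) = 0 := by linarith
    rcases mul_eq_zero.1 h0 with h0 | h0
    · exact hδ (Subtype.ext h0)
    · exact hβ' (by linarith)

def Box : Set (ℝ × ℝ) := Icc (-1) 0 ×ˢ Icc (-1) 1

noncomputable def par (z : ℝ × ℝ) : ℝ × ℝ := (z.1, Real.sin (z.1⁻¹) + z.2 * z.1)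

def Strip : Set (ℝ × ℝ) := {p | 0 < p.1 ∧ p.1 ≤ 1 ∧ |p.2 - Real.sin (p.1⁻¹)| ≤ p.1}

def XX : Set (ℝ × ℝ) := Box ∪ Strip

theorem par_cont : ContinuousOn par {z | 0 < z.1} := by
  refine continuousOn_fst.prodMk (ContinuousOn.add ?_ (by fun_prop))
  exact Real.continuous_sin.comp_continuousOn (continuousOn_fst.inv₀ fun z hz => ne_of_gt hz)

theorem par_mem (z : ℝ × ℝ) (h1 : 0 < z.1) (h2 : z.1 ≤ 1) (h3 : z.2 ∈ Icc (-1 : ℝ) 1) :
    par z ∈ Strip := by
  refine ⟨h1, h2, ?_⟩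
  simp only [par, add_sub_cancel_left]
  rw [abs_mul, abs_of_pos h1]
  have : |z.2| ≤ 1 := abs_le.2 h3
  nlinarith

theorem par_surj (p : ℝ × ℝ) (hp : p ∈ Strip) :
    ∃ r ∈ Icc (-1 : ℝ) 1, par (p.1, r) = p := by
  obtain ⟨h1, _, h3⟩ := hp
  refine ⟨(p.2 - Real.sin (p.1⁻¹)) / p.1, abs_le.1 ?_, ?_⟩
  · rw [abs_div, abs_of_pos h1, div_le_one h1]; exact h3
  · simp only [par]
    ext
    · rfl
    · simp only
      field_simp
      ring

theorem XX_compact : IsCompact XX := by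
  have hcl : IsClosed XX := by
    have e : XX = {p : ℝ × ℝ | -1 ≤ p.1 ∧ p.1 ≤ 1 ∧ |p.2| ≤ 1 + max p.1 0} ∩
        ({p : ℝ × ℝ | 0 < p.1} ∩
          (fun p : ℝ × ℝ => |p.2 - Real.sin (p.1⁻¹)| - p.1) ⁻¹' Ioi 0)ᶜ := by
      ext p
      simp only [XX, Box, Strip, mem_union, mem_prod, mem_Icc, mem_inter_iff, mem_ofPred_eq,
        mem_compl_iff, mem_preimage, mem_Ioi, not_and, not_lt]
      constructor
      · rintro (⟨⟨a, b⟩, c, d⟩ | ⟨a, b, c⟩)
        · refine ⟨⟨a, by linarith, ?_⟩, fun h => by linarith⟩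
          have := abs_le.2 ⟨c, d⟩
          have := le_max_right p.1 0
          linarith
        · refine ⟨⟨by linarith, b, ?_⟩, fun _ => by linarith⟩
          have h1 := Real.abs_sin_le_one (p.1⁻¹)
          have h2 := abs_sub_abs_le_abs_sub p.2 (Real.sin (p.1⁻¹))
          have := le_max_left p.1 0
          linarith
      · rintro ⟨⟨a, b, c⟩, d⟩
        by_cases h : 0 < p.1
        · exact Or.inr ⟨h, b, by linarith [d h]⟩
        · rw [max_eq_right (not_lt.1 h), add_zero] at c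
          exact Or.inl ⟨⟨a, not_lt.1 h⟩, abs_le.1 c⟩
    rw [e]
    refine IsClosed.inter ?_ (IsOpen.isClosed_compl ?_)
    · exact (isClosed_le continuous_const continuous_fst).inter
        ((isClosed_le continuous_fst continuous_const).inter
          (isClosed_le (f := fun p : ℝ × ℝ => |p.2|) (g := fun p : ℝ × ℝ => 1 + max p.1 0)
            (by fun_prop) (by fun_prop)))
    · refine ContinuousOn.isOpen_inter_preimage ?_ (isOpen_lt continuous_const continuous_fst)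
        isOpen_Ioi
      refine ContinuousOn.sub (ContinuousOn.abs (continuousOn_snd.sub ?_)) continuousOn_fst
      exact Real.continuous_sin.comp_continuousOn (continuousOn_fst.inv₀ fun z hz => ne_of_gt hz)
  refine ((isCompact_Icc (a := (-1 : ℝ)) (b := 1)).prod
    (isCompact_Icc (a := (-2 : ℝ)) (b := 2))).of_isClosed_subset hcl ?_
  rintro p (⟨⟨a, b⟩, c, d⟩ | ⟨a, b, c⟩)
  · exact ⟨⟨a, by linarith⟩, by linarith, by linarith⟩
  · have h1 := Real.abs_sin_le_one (p.1⁻¹)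
    have h2 := abs_sub_abs_le_abs_sub p.2 (Real.sin (p.1⁻¹))
    exact ⟨⟨by linarith, b⟩, abs_le.1 (by linarith)⟩

theorem osc (y : ℝ) (hy : y ∈ Icc (-1 : ℝ) 1) (ε : ℝ) (hε : 0 < ε) :
    ∃ x, 0 < x ∧ x < ε ∧ x ≤ 1 ∧ Real.sin (x⁻¹) = y := by
  obtain ⟨n, hn⟩ := exists_nat_gt (ε⁻¹ + 3)
  have h1 := Real.neg_pi_div_two_le_arcsin y
  have h2 := Real.pi_gt_three
  have h3 := Real.pi_le_four
  have h4 : 0 < ε⁻¹ := inv_pos.2 hε
  have h5 : ε⁻¹ + 1 < Real.arcsin y + n * (2 * Real.pi) := by nlinarith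
  refine ⟨(Real.arcsin y + n * (2 * Real.pi))⁻¹, inv_pos.2 (by linarith), ?_, ?_, ?_⟩
  · exact inv_lt_of_inv_lt₀ hε (by linarith)
  · exact inv_le_one_of_one_le₀ (by linarith)
  · rw [inv_inv, Real.sin_add_nat_mul_two_pi, Real.sin_arcsin hy.1 hy.2]

theorem acc (S : Set (ℝ × ℝ)) (hS : ∀ x, 0 < x → x ≤ 1 → ∃ p ∈ S, p ∈ Strip ∧ p.1 = x)
    (y : ℝ) (hy : y ∈ Icc (-1 : ℝ) 1) : ((0, y) : ℝ × ℝ) ∈ closure S := by
  rw [Metric.mem_closure_iff]
  intro ε hε
  obtain ⟨x, h1, h2, h3, h4⟩ := osc y hy ε hε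
  obtain ⟨p, hp, ⟨_, _, hp'⟩, rfl⟩ := hS x h1 h3
  refine ⟨p, hp, ?_⟩
  rw [Prod.dist_eq, Real.dist_eq, Real.dist_eq, max_lt_iff]
  rw [h4] at hp'
  simp only [zero_sub, abs_neg]
  rw [abs_of_pos h1, abs_sub_comm]
  exact ⟨h2, by linarith⟩

theorem XX_conn : IsConnected XX := by
  have hS : IsPreconnected Strip := by
    have e : Strip = par '' (Ioc 0 1 ×ˢ Icc (-1) 1) := by
      ext p
      constructor
      · intro hp
        obtain ⟨r, hr, e⟩ := par_surj p hp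
        exact ⟨(p.1, r), ⟨⟨hp.1, hp.2.1⟩, hr⟩, e⟩
      · rintro ⟨z, hz, rfl⟩
        exact par_mem z hz.1.1 hz.1.2 hz.2
    rw [e]
    exact (isPreconnected_Ioc.prod isPreconnected_Icc).image _
      (par_cont.mono fun z hz => hz.1.1)
  have h0 : ((0, 0) : ℝ × ℝ) ∈ closure Strip := acc Strip (fun x h1 h2 =>
    ⟨par (x, 0), par_mem _ h1 h2 (by simp), par_mem _ h1 h2 (by simp), rfl⟩) 0 (by simp)
  have hS' : IsPreconnected (insert ((0, 0) : ℝ × ℝ) Strip) :=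
    hS.subset_closure (subset_insert _ _) (insert_subset h0 subset_closure)
  have hb : ((0, 0) : ℝ × ℝ) ∈ Box := by simp [Box]
  have := IsPreconnected.union _ hb (mem_insert _ _)
    (isPreconnected_Icc.prod isPreconnected_Icc) hS'
  refine ⟨⟨_, Or.inl hb⟩, ?_⟩
  convert this using 1
  rw [union_insert, insert_eq_of_mem (mem_union_left _ hb)]
  rfl

/-- There is a continuum `X`, 2-dimensional at each of its points, and a map of `X` onto `[0,1]`
such that no closed totally disconnected subset of `X` is mapped onto `[0,1]`. -/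
theorem result : ∃ (X : Type) (_ : MetricSpace X), CompactSpace X ∧ ConnectedSpace X ∧
    (∀ x : X, LocIndLE x 2 ∧ ¬ LocIndLE x 1) ∧
    ∃ f : C(X, unitInterval), Function.Surjective f ∧
      ∀ K : Set X, IsClosed K → f '' K = univ → ¬ IsTotallyDisconnected K := by
  haveI : CompactSpace XX := isCompact_iff_compactSpace.1 XX_compact
  refine ⟨XX, inferInstance, this, isConnected_iff_connectedSpace.1 XX_conn,
    fun x => ⟨loc_two _ x, ?_⟩,
    ⟨fun p => projIcc 0 1 zero_le_one p.1.1, continuous_projIcc.comp (by fun_prop)⟩, ?_, ?_⟩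
  · rcases x.2 with h | h
    · exact not_loc_rect XX id (-1) 0 (-1) 1 (by norm_num) (by norm_num) continuousOn_id
        (injOn_id _) (fun z hz => Or.inl hz) x h x rfl
    · obtain ⟨r, hr, e⟩ := par_surj _ h
      have h1 := h.1
      have h2 := h.2.1
      refine not_loc_rect XX par ((x : ℝ × ℝ).1 / 2) 1 (-1) 1 (by linarith) (by norm_num)
        (par_cont.mono fun z hz => lt_of_lt_of_le (by linarith) hz.1.1) ?_
        (fun z hz => Or.inr (par_mem z (lt_of_lt_of_le (by linarith) hz.1.1) hz.1.2 hz.2))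
        ((x : ℝ × ℝ).1, r) ⟨⟨by linarith, h2⟩, hr⟩ x e
      intro z hz w _ hzw
      have e1 : z.1 = w.1 := (congrArg Prod.fst hzw : (par z).1 = (par w).1)
      have e2 := congrArg Prod.snd hzw
      simp only [par, ← e1, add_right_inj] at e2
      have hz0 : z.1 ≠ 0 := ne_of_gt (lt_of_lt_of_le (by linarith) hz.1.1)
      exact Prod.ext e1 (mul_right_cancel₀ hz0 e2)
  · intro t
    by_cases ht : (t : ℝ) = 0
    · refine ⟨⟨(0, 0), Or.inl (by simp [Box])⟩, ?_⟩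
      show projIcc 0 1 zero_le_one (0 : ℝ) = t
      rw [projIcc_left]
      exact Subtype.ext ht.symm
    · refine ⟨⟨par (t, 0), Or.inr (par_mem _ (lt_of_le_of_ne t.2.1 (Ne.symm ht)) t.2.2
        (by simp))⟩, ?_⟩
      exact projIcc_val zero_le_one t
  · intro K hK hf hT
    have hK' : IsClosed (Subtype.val '' K : Set (ℝ × ℝ)) :=
      (hK.isCompact.image continuous_subtype_val).isClosed
    have hacc : ∀ y ∈ Icc (-1 : ℝ) 1, ((0, y) : ℝ × ℝ) ∈ (Subtype.val '' K : Set (ℝ × ℝ)) := by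
      intro y hy
      rw [← hK'.closure_eq]
      refine acc _ (fun x h1 h2 => ?_) y hy
      obtain ⟨p, hp, e⟩ : (⟨x, h1.le, h2⟩ : unitInterval) ∈ _ '' K := hf ▸ mem_univ _
      have e' : projIcc 0 1 zero_le_one p.1.1 = ⟨x, h1.le, h2⟩ := e
      rcases p.2 with h | h
      · rw [projIcc_of_le_left _ h.1.2] at e'
        have : (0 : ℝ) = x := congrArg Subtype.val e'
        linarith
      · rw [projIcc_of_mem _ ⟨h.1.le, h.2.1⟩] at e'
        exact ⟨p, ⟨p, hp, rfl⟩, h, congrArg Subtype.val e'⟩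
    have hT' : IsTotallyDisconnected (Subtype.val '' K : Set (ℝ × ℝ)) :=
      IsEmbedding.subtypeVal.isTotallyDisconnected_image.2 hT
    have := hT' ((fun y : ℝ => ((0, y) : ℝ × ℝ)) '' Icc (-1) 1)
      (by rintro _ ⟨y, hy, rfl⟩; exact hacc y hy)
      (isPreconnected_Icc.image _ (by fun_prop)) ⟨0, by simp, rfl⟩ ⟨1, by simp, rfl⟩
    simp at this

end Pool.Agent.Results.MP_b0a983_gt.Counter
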